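import Mathlib

set_option autoImplicit false
open MeasureTheory Metric Set Filter Topology Complex
open scoped ContDiff ENNReal ComplexConjugate

namespace Pool.Agent.Helper366.IV

theorem cauchy_pompeiu (φ : ℂ → ℂ) (h : ContDiff ℝ 1 φ) (hc : HasCompactSupport φ) (z : ℂ) :
    ∫ w, (fderiv ℝ φ (z - w) 1 + I * fderiv ℝ φ (z - w) I) / 2 / w = Real.pi * φ z := by
  have hD : Continuous (fderiv ℝ φ) := h.continuous_fderiv (by simp)
  have hDs : HasCompactSupport (fderiv ℝ φ) := hc.fderiv ℝ
  -- parametrisation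
  set e : ℝ → ℂ := fun θ => Complex.exp (θ * I) with he
  have hec : Continuous e := by fun_prop
  have hen : ∀ θ, ‖e θ‖ = 1 := fun θ => Complex.norm_exp_ofReal_mul_I θ
  have he0 : ∀ θ, e θ ≠ 0 := fun θ => Complex.exp_ne_zero _
  set A : ℝ × ℝ → ℂ := fun p => fderiv ℝ φ (z - p.1 * e p.2) (e p.2) with hA
  set B : ℝ × ℝ → ℂ := fun p => fderiv ℝ φ (z - p.1 * e p.2) (I * e p.2) with hB
  have hAc : Continuous A := by
    apply Continuous.clm_apply
    · exact hD.comp (by fun_prop)
    · fun_prop
  have hBc : Continuous B := by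
    apply Continuous.clm_apply
    · exact hD.comp (by fun_prop)
    · fun_prop
  -- support
  obtain ⟨R, hR0, hR⟩ : ∃ R : ℝ, 0 < R ∧ ∀ w : ℂ, R ≤ ‖w‖ → φ (z - w) = 0 ∧ fderiv ℝ φ (z - w) = 0 := by
    obtain ⟨R', hR'⟩ := (hc.isCompact.isBounded).subset_closedBall (0 : ℂ)
    refine ⟨max 1 (R' + ‖z‖ + 1), by positivity, fun w hw => ?_⟩
    have hw' : R' + ‖z‖ + 1 ≤ ‖w‖ := (le_max_right _ _).trans hw
    have hnot : z - w ∉ tsupport φ := by
      intro hmem
      have := hR' hmem
      rw [mem_closedBall_zero_iff] at this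
      have h2 : ‖w‖ ≤ ‖z - w‖ + ‖z‖ := by
        have : w = z - (z - w) := by ring
        calc ‖w‖ = ‖z - (z - w)‖ := by rw [← this]
          _ ≤ ‖z‖ + ‖z - w‖ := norm_sub_le _ _
          _ = _ := by ring
      linarith
    refine ⟨image_eq_zero_of_notMem_tsupport hnot, ?_⟩
    by_contra hne
    exact hnot (support_fderiv_subset ℝ hne)
  have hnorm : ∀ (r θ : ℝ), 0 ≤ r → ‖(r : ℂ) * e θ‖ = r := by
    intro r θ hr
    rw [norm_mul, hen, mul_one, Complex.norm_real, Real.norm_of_nonneg hr]
  have hA0 : ∀ r θ : ℝ, R ≤ r → A (r, θ) = 0 := by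
    intro r θ hr
    simp only [hA]
    rw [(hR _ (by rw [hnorm r θ (hR0.le.trans hr)]; exact hr)).2]; rfl
  have hB0 : ∀ r θ : ℝ, R ≤ r → B (r, θ) = 0 := by
    intro r θ hr
    simp only [hB]
    rw [(hR _ (by rw [hnorm r θ (hR0.le.trans hr)]; exact hr)).2]; rfl
  set S : Set ℝ := Ioi (0 : ℝ) with hS
  set T : Set ℝ := Ioo (-Real.pi) Real.pi with hT
  have hint : ∀ C : ℝ × ℝ → ℂ, Continuous C → (∀ r θ : ℝ, R ≤ r → C (r, θ) = 0) →
      Integrable C ((volume.restrict S).prod (volume.restrict T)) := by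
    intro C hCc hC0
    rw [Measure.prod_restrict]
    have h1 : IntegrableOn C (Icc 0 R ×ˢ Icc (-Real.pi) Real.pi) (volume.prod volume) := by
      have : IsCompact (Icc (0 : ℝ) R ×ˢ Icc (-Real.pi) Real.pi) := isCompact_Icc.prod isCompact_Icc
      exact hCc.continuousOn.integrableOn_compact this
    have h2 : IntegrableOn C ((S ∩ Iic R) ×ˢ T) (volume.prod volume) := by
      apply h1.mono_set
      rintro ⟨r, θ⟩ ⟨⟨hr1, hr2⟩, hθ⟩
      exact ⟨⟨le_of_lt hr1, hr2⟩, ⟨hθ.1.le, hθ.2.le⟩⟩
    refine h2.of_forall_sdiff_eq_zero (measurableSet_Ioi.prod measurableSet_Ioo) ?_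
    rintro ⟨r, θ⟩ ⟨⟨hr, hθ⟩, hn⟩
    apply hC0
    by_contra hlt
    push Not at hlt
    exact hn ⟨⟨hr, hlt.le⟩, hθ⟩
  have hAi := hint A hAc hA0
  have hBi := hint B hBc hB0
  -- polar coordinates
  rw [← Complex.integral_comp_polarCoord_symm]
  have htarget : polarCoord.target = S ×ˢ T := rfl
  have e1 : ∫ p in polarCoord.target, p.1 • ((fderiv ℝ φ (z - Complex.polarCoord.symm p) 1 +
      I * fderiv ℝ φ (z - Complex.polarCoord.symm p) I) / 2 / Complex.polarCoord.symm p) =
      ∫ p in S ×ˢ T, (1 / 2 : ℂ) * (A p + I * B p) := by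
    rw [htarget]
    apply setIntegral_congr_fun (measurableSet_Ioi.prod measurableSet_Ioo)
    rintro ⟨r, θ⟩ ⟨hr, hθ⟩
    have hr : (0 : ℝ) < r := hr
    have hps : Complex.polarCoord.symm (r, θ) = r * e θ := by
      rw [Complex.polarCoord_symm_apply, he]
      simp only
      rw [Complex.exp_mul_I]
      push_cast; ring
    simp only [hps, hA, hB]
    set L := fderiv ℝ φ (z - r * e θ) with hL
    have hdec : ∀ a : ℂ, L a = a.re * L 1 + a.im * L I := by
      intro a
      have : a = a.re • (1 : ℂ) + a.im • I := by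
        apply Complex.ext <;> simp
      conv_lhs => rw [this]
      rw [map_add, map_smul, map_smul]; simp
    rw [hdec (e θ), hdec (I * e θ)]
    have hre : (e θ).re = Real.cos θ := by simp [he, Complex.exp_ofReal_mul_I_re]
    have him : (e θ).im = Real.sin θ := by simp [he, Complex.exp_ofReal_mul_I_im]
    have hIre : (I * e θ).re = - Real.sin θ := by simp [him]
    have hIim : (I * e θ).im = Real.cos θ := by simp [hre]
    rw [hre, him, hIre, hIim]
    have hr0 : (r : ℂ) ≠ 0 := by exact_mod_cast hr.ne'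
    rw [Complex.real_smul]
    have heθ : e θ = Real.cos θ + Real.sin θ * I := by
      rw [he]; simp only
      rw [Complex.exp_mul_I]; push_cast; ring
    have hcs : ((Real.cos θ : ℝ) : ℂ) ^ 2 + ((Real.sin θ : ℝ) : ℂ) ^ 2 = 1 := by
      exact_mod_cast Real.cos_sq_add_sin_sq θ
    have hinv : (e θ)⁻¹ = Real.cos θ - Real.sin θ * I := by
      apply inv_eq_of_mul_eq_one_left
      rw [heθ]
      ring_nf
      rw [Complex.I_sq]
      linear_combination hcs
    have : (r : ℂ) * ((L 1 + I * L I) / 2 / (r * e θ)) = (1 / 2) * ((L 1 + I * L I) * (e θ)⁻¹) := by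
      field_simp [he0 θ]
    rw [this, hinv]
    push_cast
    ring_nf
    rw [Complex.I_sq]; ring
  rw [e1]
  have e2 : ∫ p in S ×ˢ T, (1 / 2 : ℂ) * (A p + I * B p) =
      (1 / 2) * ((∫ p in S ×ˢ T, A p) + I * ∫ p in S ×ˢ T, B p) := by
    have hAi' : IntegrableOn A (S ×ˢ T) := by
      have := hAi; rw [Measure.prod_restrict] at this; exact this
    have hBi' : IntegrableOn B (S ×ˢ T) := by
      have := hBi; rw [Measure.prod_restrict] at this; exact this
    rw [integral_const_mul, integral_add hAi' (hBi'.const_mul I), integral_const_mul]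
  rw [e2]
  -- the radial integral
  have hvol : (volume : Measure (ℝ × ℝ)) = (volume : Measure ℝ).prod volume := rfl
  have eA : ∫ p in S ×ˢ T, A p = 2 * Real.pi * φ z := by
    rw [hvol, ← Measure.prod_restrict, integral_prod_symm _ hAi]
    have : ∀ θ : ℝ, ∫ r in S, A (r, θ) = φ z := by
      intro θ
      have hder : ∀ r : ℝ, HasDerivAt (fun r : ℝ => - φ (z - r * e θ)) (A (r, θ)) r := by
        intro r
        have h1 : HasFDerivAt φ (fderiv ℝ φ (z - r * e θ)) (z - r * e θ) :=
          (h.differentiable (by simp) _).hasFDerivAt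
        have h2 : HasDerivAt (fun r : ℝ => z - (r : ℂ) * e θ) (-(e θ)) r := by
          have := ((Complex.ofRealCLM.hasDerivAt (x := r)).mul_const (e θ)).const_sub z
          simpa using this
        have h3 := (h1.comp_hasDerivAt r h2).neg
        simp only [map_neg, neg_neg] at h3
        exact h3
      have hcs : IntegrableOn (fun r => A (r, θ)) (Ioi 0) := by
        have hcc : Continuous (fun r : ℝ => A (r, θ)) := by fun_prop
        have h1 : IntegrableOn (fun r : ℝ => A (r, θ)) (Icc 0 R) :=
          hcc.continuousOn.integrableOn_compact isCompact_Icc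
        refine (h1.mono_set (s := Ioi 0 ∩ Iic R) ?_).of_forall_sdiff_eq_zero measurableSet_Ioi ?_
        · rintro r ⟨hr1, hr2⟩; exact ⟨le_of_lt hr1, hr2⟩
        · rintro r ⟨hr, hn⟩
          apply hA0
          by_contra hlt
          push Not at hlt
          exact hn ⟨hr, hlt.le⟩
      have hten : Tendsto (fun r : ℝ => - φ (z - r * e θ)) atTop (𝓝 0) := by
        apply tendsto_const_nhds.congr'
        filter_upwards [eventually_ge_atTop R] with r hr
        rw [(hR (r * e θ) (by rw [hnorm r θ (hR0.le.trans hr)]; exact hr)).1]; simp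
      have := integral_Ioi_of_hasDerivAt_of_tendsto (a := 0) (hder 0).continuousAt.continuousWithinAt
        (fun r _ => hder r) hcs hten
      rw [this]; simp
    simp_rw [this]
    rw [setIntegral_const]
    simp only [hT, Measure.real, Real.volume_Ioo, Complex.real_smul]
    rw [ENNReal.toReal_ofReal (by linarith [Real.pi_pos])]
    push_cast; ring
  have eB : ∫ p in S ×ˢ T, B p = 0 := by
    rw [hvol, ← Measure.prod_restrict, integral_prod _ hBi]
    have : ∀ r ∈ S, ∫ θ in T, B (r, θ) = 0 := by
      intro r hr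
      have hr : (0 : ℝ) < r := hr
      have hr0 : (r : ℂ) ≠ 0 := by exact_mod_cast hr.ne'
      have hder : ∀ θ : ℝ, HasDerivAt (fun θ : ℝ => - (r : ℂ)⁻¹ * φ (z - r * e θ)) (B (r, θ)) θ := by
        intro θ
        have h1 : HasFDerivAt φ (fderiv ℝ φ (z - r * e θ)) (z - r * e θ) :=
          (h.differentiable (by simp) _).hasFDerivAt
        have h0 : HasDerivAt e (I * e θ) θ := by
          have h4 : HasDerivAt (fun θ : ℝ => (θ : ℂ) * I) I θ := by
            have := (Complex.ofRealCLM.hasDerivAt (x := θ)).mul_const I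
            simpa using this
          have := h4.cexp
          rw [mul_comm]
          exact this
        have h2 : HasDerivAt (fun θ : ℝ => z - (r : ℂ) * e θ) (-((r : ℂ) * (I * e θ))) θ := by
          have := (h0.const_mul (r : ℂ)).const_sub z
          simpa using this
        have h3 := (h1.comp_hasDerivAt θ h2).const_mul (- (r : ℂ)⁻¹)
        have h5 : - (r : ℂ)⁻¹ * (fderiv ℝ φ (z - r * e θ)) (-((r : ℂ) * (I * e θ))) = B (r, θ) := by
          have : (r : ℂ) * (I * e θ) = r • (I * e θ) := by rw [Complex.real_smul]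
          rw [this, map_neg, map_smul, Complex.real_smul]
          simp only [hB]
          field_simp
        rw [h5] at h3
        exact h3
      rw [← integral_Ioc_eq_integral_Ioo,
        ← intervalIntegral.integral_of_le (by linarith [Real.pi_pos])]
      have hcc : Continuous (fun θ : ℝ => B (r, θ)) := by fun_prop
      rw [intervalIntegral.integral_eq_sub_of_hasDerivAt (fun θ _ => hder θ)
        (hcc.intervalIntegrable _ _)]
      have : e Real.pi = e (-Real.pi) := by
        simp only [he]
        push_cast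
        rw [neg_mul, Complex.exp_neg, Complex.exp_pi_mul_I]; norm_num
      rw [this]; ring
    rw [setIntegral_congr_fun measurableSet_Ioi (g := fun _ => (0 : ℂ)) (fun r hr => this r hr)]
    simp
  rw [eA, eB]; ring

end Pool.Agent.Helper366.IV
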