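import Mathlib
import Pool.Agent.KS6_3.HT0.Helper366.IV.CP

set_option autoImplicit false
open MeasureTheory Metric Set Filter Topology Complex
open scoped ContDiff ENNReal ComplexConjugate

namespace Pool.Agent.Helper366.IV



theorem inv_int733 (r : ℝ) : IntegrableOn (fun w : ℂ => w⁻¹) (ball 0 r) := by
  have h : IntegrableOn (fun w : ℂ => (‖w‖)⁻¹) (ball 0 r) := by
    rw [integrableOn_fun_norm_addHaar (volume : Measure ℂ) (f := fun y : ℝ => y⁻¹) (r := r)]
    rw [Complex.finrank_real_complex]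
    have h1 : IntegrableOn (fun _ : ℝ => (1:ℝ)) (Ioo 0 r) := by
      exact integrableOn_const measure_Ioo_lt_top.ne (by simp)
    refine h1.congr_fun ?_ measurableSet_Ioo
    intro y hy
    have hy0 : y ≠ 0 := hy.1.ne'
    simp [hy0]
  refine Integrable.mono' h ?_ ?_
  · exact (measurable_inv).aestronglyMeasurable
  · exact ae_of_all _ (fun w => by rw [norm_inv])

theorem inv_loc733 : LocallyIntegrable (fun w : ℂ => w⁻¹) := by
  intro x
  refine ⟨ball 0 (‖x‖ + 1), isOpen_ball.mem_nhds (by simp), inv_int733 _⟩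

/-- truncated kernel -/
noncomputable def KM (M : ℝ) : ℂ → ℂ := indicator (ball 0 M) (fun w : ℂ => w⁻¹)

theorem KM_int (M : ℝ) : Integrable (KM M) := by
  unfold KM
  rw [integrable_indicator_iff measurableSet_ball]
  exact inv_int733 M

theorem KM_eq {M : ℝ} {w : ℂ} (h : ‖w‖ < M) : KM M w = w⁻¹ := by
  unfold KM
  rw [indicator_of_mem]
  simpa using h

theorem zbar733 (φ : ℂ → ℂ) (hφ : ContDiff ℝ ∞ φ) (hc : HasCompactSupport φ) :
    ContDiff ℝ ∞ (fun z => ∫ t, t⁻¹ * φ (z - t)) ∧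
    ∀ z, (fderiv ℝ (fun z => ∫ t, t⁻¹ * φ (z - t)) z 1 +
      I * fderiv ℝ (fun z => ∫ t, t⁻¹ * φ (z - t)) z I) / 2 = Real.pi * φ z := by
  have hφ1 : ContDiff ℝ 1 φ := hφ.of_le (by exact_mod_cast le_top)
  have e : (fun z => ∫ t, t⁻¹ * φ (z - t)) =
      convolution (fun w : ℂ => w⁻¹) φ (ContinuousLinearMap.mul ℝ ℂ) volume := by
    funext z
    rfl
  constructor
  · rw [e]
    exact hc.contDiff_convolution_right (n := ⊤) (ContinuousLinearMap.mul ℝ ℂ) inv_loc733 hφ
  · intro z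
    have hd := hc.hasFDerivAt_convolution_right (ContinuousLinearMap.mul ℝ ℂ) inv_loc733 hφ1 z
    rw [← e] at hd
    rw [hd.fderiv]
    have hex : Integrable (fun t : ℂ => ((ContinuousLinearMap.mul ℝ ℂ).precompR ℂ (t⁻¹)) (fderiv ℝ φ (z - t))) :=
      (hc.fderiv ℝ).convolutionExists_right ((ContinuousLinearMap.mul ℝ ℂ).precompR ℂ) inv_loc733
        (hφ1.continuous_fderiv one_ne_zero) z
    have happ : ∀ e' : ℂ, (convolution (fun w : ℂ => w⁻¹) (fderiv ℝ φ)
        ((ContinuousLinearMap.mul ℝ ℂ).precompR ℂ) volume z) e' = ∫ t, t⁻¹ * fderiv ℝ φ (z - t) e' := by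
      intro e'
      rw [convolution_def, ContinuousLinearMap.integral_apply hex]
      rfl
    have hint : ∀ e' : ℂ, Integrable (fun t : ℂ => t⁻¹ * fderiv ℝ φ (z - t) e') := by
      intro e'
      exact hex.apply_continuousLinearMap e'
    rw [happ, happ, ← integral_const_mul, ← integral_add (hint 1) ((hint I).const_mul I)]
    rw [← cauchy_pompeiu φ hφ1 hc z, ← integral_div]
    congr 1
    funext t
    ring

/- TARGET -/
theorem rep (v g : ℂ → ℂ) (hv : Integrable v) (hg : Integrable g) (R : ℝ)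
    (hvs : ∀ z, R < ‖z‖ → v z = 0) (hgs : ∀ z, R < ‖z‖ → g z = 0)
    (hw : ∀ φ : ℂ → ℂ, ContDiff ℝ ∞ φ → HasCompactSupport φ →
      (∫ z, v z * ((fderiv ℝ φ z 1 + I * fderiv ℝ φ z I) / 2)) = - ∫ z, g z * φ z) :
    ∀ᵐ z, v z = 1 / Real.pi * ∫ w, g w / (z - w) := by
  have hpi : (Real.pi : ℂ) ≠ 0 := by exact_mod_cast Real.pi_ne_zero
  -- integrability on the product
  have hprod : ∀ M : ℝ, Integrable (fun p : ℂ × ℂ => g p.2 * KM M (p.1 - p.2)) (volume.prod volume) := by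
    intro M
    exact hg.convolution_integrand (ContinuousLinearMap.mul ℝ ℂ) (KM_int M)
  -- local integrability of T
  have hT : LocallyIntegrable (fun z : ℂ => 1 / Real.pi * ∫ w, g w / (z - w)) := by
    intro x
    refine ⟨ball 0 (‖x‖ + 1), isOpen_ball.mem_nhds (by simp), ?_⟩
    have h1 := (hprod (max R 0 + (‖x‖ + 1))).integral_prod_left
    have h2 : IntegrableOn (fun z : ℂ => (1 / Real.pi : ℂ) * ∫ w, g w * KM (max R 0 + (‖x‖ + 1)) (z - w))
        (ball 0 (‖x‖ + 1)) := (h1.const_mul _).integrableOn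
    refine h2.congr_fun ?_ measurableSet_ball
    intro z hz
    have hz' : ‖z‖ < ‖x‖ + 1 := by simpa using hz
    show (1 / Real.pi : ℂ) * ∫ w, g w * KM (max R 0 + (‖x‖ + 1)) (z - w) = 1 / Real.pi * ∫ w, g w / (z - w)
    congr 1
    apply integral_congr_ae
    refine ae_of_all _ (fun w => ?_)
    show g w * KM (max R 0 + (‖x‖ + 1)) (z - w) = g w / (z - w)
    rcases lt_or_ge R ‖w‖ with h | h
    · rw [hgs w h]; simp
    · rw [KM_eq]
      · rw [div_eq_mul_inv]
      · calc ‖z - w‖ ≤ ‖z‖ + ‖w‖ := norm_sub_le _ _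
          _ < max R 0 + (‖x‖ + 1) := by linarith [le_max_left R 0]
  apply ae_eq_of_integral_contDiff_smul_eq hv.locallyIntegrable hT
  intro θ hθ hθc
  set φ : ℂ → ℂ := fun z => (θ z : ℂ) with hφdef
  have hφ : ContDiff ℝ ∞ φ := Complex.ofRealCLM.contDiff.comp hθ
  have hφc : HasCompactSupport φ := hθc.comp_left (g := fun x : ℝ => (x : ℂ)) (by simp)
  obtain ⟨hψs, hψz⟩ := zbar733 φ hφ hφc
  set ψ : ℂ → ℂ := fun z => ∫ t, t⁻¹ * φ (z - t) with hψ
  -- cutoff
  let χ : ContDiffBump (0 : ℂ) := ⟨max R 0 + 1, max R 0 + 2, by positivity, by linarith⟩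
  set η : ℂ → ℂ := fun z => ((χ z : ℝ) : ℂ) * ψ z with hη
  have hηs : ContDiff ℝ ∞ η := by
    have h1 : ContDiff ℝ ∞ (fun z : ℂ => ((χ z : ℝ) : ℂ)) := Complex.ofRealCLM.contDiff.comp χ.contDiff
    exact h1.mul hψs
  have hηc : HasCompactSupport η := by
    have h1 : HasCompactSupport (fun z : ℂ => ((χ z : ℝ) : ℂ)) :=
      χ.hasCompactSupport.comp_left (g := fun x : ℝ => (x : ℂ)) (by simp)
    exact h1.mul_right
  have hηev : ∀ z : ℂ, ‖z‖ ≤ R → η =ᶠ[𝓝 z] ψ := by
    intro z hz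
    have hb : ball (0:ℂ) (max R 0 + 1) ∈ 𝓝 z := by
      apply isOpen_ball.mem_nhds
      rw [mem_ball_zero_iff]
      linarith [le_max_left R 0]
    filter_upwards [hb] with w hw'
    have h1 : χ w = 1 := χ.one_of_mem_closedBall (ball_subset_closedBall hw')
    show ((χ w : ℝ) : ℂ) * ψ w = ψ w
    rw [h1]; simp
  have hkey := hw η hηs hηc
  have hL : (∫ z, v z * ((fderiv ℝ η z 1 + I * fderiv ℝ η z I) / 2)) = ∫ z, v z * (Real.pi * φ z) := by
    apply integral_congr_ae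
    refine ae_of_all _ (fun z => ?_)
    show v z * ((fderiv ℝ η z 1 + I * fderiv ℝ η z I) / 2) = v z * (Real.pi * φ z)
    rcases lt_or_ge R ‖z‖ with h | h
    · rw [hvs z h]; simp
    · rw [(hηev z h).fderiv_eq, hψz z]
  have hR : (∫ z, g z * η z) = ∫ z, g z * ψ z := by
    apply integral_congr_ae
    refine ae_of_all _ (fun z => ?_)
    show g z * η z = g z * ψ z
    rcases lt_or_ge R ‖z‖ with h | h
    · rw [hgs z h]; simp
    · rw [(hηev z h).eq_of_nhds]
  rw [hL, hR] at hkey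
  -- Fubini
  obtain ⟨ρ, hρ⟩ := hφc.isBounded.subset_ball (0 : ℂ)
  obtain ⟨C, hC⟩ := hφ.continuous.bounded_above_of_compact_support hφc
  have hG : Integrable (fun p : ℂ × ℂ => φ p.1 * (g p.2 * (p.1 - p.2)⁻¹)) (volume.prod volume) := by
    have h1 : Integrable (fun p : ℂ × ℂ => φ p.1 * (g p.2 * KM (max R 0 + ρ) (p.1 - p.2)))
        (volume.prod volume) := by
      refine (hprod (max R 0 + ρ)).bdd_mul (c := C) ?_ ?_
      · exact (hφ.continuous.comp continuous_fst).aestronglyMeasurable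
      · exact ae_of_all _ (fun p => hC p.1)
    refine h1.congr (ae_of_all _ (fun p => ?_))
    show φ p.1 * (g p.2 * KM (max R 0 + ρ) (p.1 - p.2)) = φ p.1 * (g p.2 * (p.1 - p.2)⁻¹)
    rcases lt_or_ge R ‖p.2‖ with h | h
    · rw [hgs _ h]; simp
    · by_cases h0 : φ p.1 = 0
      · rw [h0]; simp
      · have h2 : p.1 ∈ ball (0:ℂ) ρ := hρ (subset_tsupport _ h0)
        rw [mem_ball_zero_iff] at h2
        rw [KM_eq]
        calc ‖p.1 - p.2‖ ≤ ‖p.1‖ + ‖p.2‖ := norm_sub_le _ _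
          _ < max R 0 + ρ := by linarith [le_max_left R 0]
  have hswap := integral_integral_swap (f := fun z w : ℂ => φ z * (g w * (z - w)⁻¹)) hG
  have hψ2 : ∀ w : ℂ, ψ w = - ∫ z, φ z * (z - w)⁻¹ := by
    intro w
    show ∫ t, t⁻¹ * φ (w - t) = _
    rw [← integral_sub_left_eq_self (fun t : ℂ => t⁻¹ * φ (w - t)) volume w, ← integral_neg]
    apply integral_congr_ae
    refine ae_of_all _ (fun z => ?_)
    show (w - z)⁻¹ * φ (w - (w - z)) = -(φ z * (z - w)⁻¹)
    rw [sub_sub_cancel, ← neg_sub z w, inv_neg]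
    ring
  have h3 : (∫ z, g z * ψ z) = - ∫ w, ∫ z, φ z * (g w * (z - w)⁻¹) := by
    rw [← integral_neg]
    apply integral_congr_ae
    refine ae_of_all _ (fun w => ?_)
    show g w * ψ w = - ∫ z, φ z * (g w * (z - w)⁻¹)
    rw [hψ2 w, mul_neg, ← integral_const_mul]
    congr 1
    apply integral_congr_ae
    refine ae_of_all _ (fun z => ?_)
    show g w * (φ z * (z - w)⁻¹) = φ z * (g w * (z - w)⁻¹)
    ring
  rw [← hswap] at h3
  rw [h3, neg_neg] at hkey
  have h4 : (∫ z, θ z • v z) = (1 / Real.pi : ℂ) * ∫ z, v z * (Real.pi * φ z) := by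
    rw [← integral_const_mul]
    apply integral_congr_ae
    refine ae_of_all _ (fun z => ?_)
    show θ z • v z = (1 / Real.pi : ℂ) * (v z * (Real.pi * φ z))
    rw [Complex.real_smul]
    field_simp
    rw [hφdef]
    ring
  rw [h4, hkey, ← integral_const_mul]
  apply integral_congr_ae
  refine ae_of_all _ (fun z => ?_)
  show (1 / Real.pi : ℂ) * ∫ w, φ z * (g w * (z - w)⁻¹) = θ z • (1 / Real.pi * ∫ w, g w / (z - w))
  rw [Complex.real_smul, integral_const_mul]
  have e5 : (∫ w, g w * (z - w)⁻¹) = ∫ w, g w / (z - w) := by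
    congr 1
  rw [e5]
  show (1 / Real.pi : ℂ) * ((θ z : ℂ) * ∫ w, g w / (z - w)) = (θ z : ℂ) * (1 / Real.pi * ∫ w, g w / (z - w))
  ring

end Pool.Agent.Helper366.IV
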